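import Mathlib
import Pool.Agent.TH95.PR.Quad

/-! No representation of `Out(F_n)`, `n ≥ 3`, over a field, in which a transvection has a minimal
polynomial of degree at most two or is unipotent with Jordan blocks of size at most three, is
faithful. -/

set_option autoImplicit false

namespace Pool.Agent.Results.MP_6bf536_al.LowDegreeTransvections

open Polynomial

universe u

/-- `τ` is the transvection `x_i ↦ x_i x_j` (`i ≠ j`), fixing the other generators -/
def IsTransvection {n : ℕ} (τ : MulAut (FreeGroup (Fin n))) : Prop :=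
  ∃ i j : Fin n, i ≠ j ∧ τ (FreeGroup.of i) = FreeGroup.of i * FreeGroup.of j ∧
    ∀ k, k ≠ i → τ (FreeGroup.of k) = FreeGroup.of k

/-- the matrix `M` is annihilated by a nonzero polynomial of degree at most two -/
def QuadMatrix {K : Type u} [Field K] {d : ℕ} (M : Matrix (Fin d) (Fin d) K) : Prop :=
  ∃ p : K[X], p ≠ 0 ∧ p.natDegree ≤ 2 ∧ aeval M p = 0

/-- the matrix `M` is unipotent with Jordan blocks of size at most three: `(M - 1)^3 = 0` -/
def UnipCube {K : Type u} [Field K] {d : ℕ} (M : Matrix (Fin d) (Fin d) K) : Prop :=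
  (M - 1) ^ 3 = 0

/-- `κ` is not an inner automorphism -/
def NotInner {n : ℕ} (κ : MulAut (FreeGroup (Fin n))) : Prop := ∀ u, κ ≠ MulAut.conj u

/-- Let `n ≥ 3` and let `f` be a representation of `Aut(F_n)` over a field in which a transvection
is annihilated by a nonzero polynomial of degree at most `2` or by `(x - 1)^3`. Then the kernel of
`f` contains an automorphism that is not inner. -/
theorem result (K : Type u) [Field K] (n : ℕ) (hn : 3 ≤ n)
    (d : ℕ) (f : MulAut (FreeGroup (Fin n)) →* Matrix.GeneralLinearGroup (Fin d) K)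
    (τ : MulAut (FreeGroup (Fin n))) (hτ : IsTransvection τ)
    (hc : QuadMatrix (f τ : Matrix (Fin d) (Fin d) K) ∨
      UnipCube (f τ : Matrix (Fin d) (Fin d) K)) :
    ∃ κ : MulAut (FreeGroup (Fin n)), NotInner κ ∧ f κ = 1 := by
  obtain ⟨m, rfl⟩ : ∃ m, n = m + 1 := ⟨n - 1, by omega⟩
  obtain ⟨i, j, hij, h, h'⟩ := hτ
  rcases hc with ⟨p, hp0, hp2, hp⟩ | hu
  · obtain ⟨κ, h4, h5⟩ := Pool.Agent.TH95.PR.aut_quad (by omega) f τ hij h h' p hp0 hp2 hp
    exact ⟨κ, h5, h4⟩
  obtain ⟨p, hp⟩ := CharP.exists K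
  rcases CharP.char_is_prime_or_zero K p with hpr | rfl
  · -- positive characteristic
    haveI : Fact p.Prime := ⟨hpr⟩
    refine ⟨τ ^ p ^ 2, Pool.Agent.TH95.PR.transv_pow_notInner τ hij h h'
      (pow_pos hpr.pos 2).ne', ?_⟩
    rcases Nat.eq_zero_or_pos d with rfl | hd
    · haveI : Subsingleton (Matrix.GeneralLinearGroup (Fin 0) K) :=
        ⟨fun a b => Units.ext (Subsingleton.elim _ _)⟩
      exact Subsingleton.elim _ _
    haveI : Nonempty (Fin d) := ⟨⟨0, hd⟩⟩
    haveI : CharP (Matrix (Fin d) (Fin d) K) p := Matrix.charP p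
    have h1 : (f τ : Matrix (Fin d) (Fin d) K) ^ p ^ 2 - 1 = 0 := by
      have h2 := sub_pow_char_pow_of_commute (p := p) (n := 2)
        (Commute.one_right (f τ : Matrix (Fin d) (Fin d) K))
      rw [one_pow] at h2
      rw [← h2]
      refine pow_eq_zero_of_le ?_ hu
      have := hpr.two_le
      nlinarith
    apply Units.ext
    rw [map_pow, Units.val_pow_eq_pow_val, Units.val_one]
    exact sub_eq_zero.1 h1
  · -- characteristic zero
    haveI : CharZero K := CharP.charP_to_charZero K
    obtain ⟨κ, h4, h5⟩ := Pool.Agent.TH95.PR.aut_main (K := K) two_ne_zero three_ne_zero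
      (by omega) f τ hij h h' hu
    exact ⟨κ, h5, h4⟩

end Pool.Agent.Results.MP_6bf536_al.LowDegreeTransvections
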